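import Pool.Agent.H418R3.EF.Fin
import Pool.Agent.H418R3.EF.C.Frame
import Pool.Agent.H418R3.EF.C.Glue
import Pool.Agent.H418R3.EF.C.Ab
import Pool.Agent.H418R3.EF.C.Idx
import Pool.Agent.H418R3.EF.C.Iso
import Pool.Agent.H418R3.EF.C.Std
import Pool.Agent.H418R3.EF.C.Meas
import Pool.Agent.H418R3.EF.C.E
import Pool.Agent.H418R3.EF.C.S
import Pool.Agent.H418R3.EF.C.CC
import Pool.Agent.H418R3.EF.C.D1
import Pool.Agent.H418R3.EF.C.D2
import Pool.Agent.H418R3.EF.C.T1
import Pool.Agent.H418R3.EF.C.T2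
import Pool.Agent.H418R3.EF.C.T3
import Pool.Agent.H418R3.EF.C.T4
import Pool.Agent.H418R3.EF.C.Cov

namespace Pool.Agent.Results.MP_98674e_lc.RankTwo

open Pool.Agent.H418R3.EF

/-- (a) For every n the isomorphism relation of rank n torsion-free abelian groups, restricted to
the groups all of whose automorphisms are scalars, is essentially free. (b) The isomorphism
relation of torsion-free abelian groups of rank 2 is essentially free. -/
theorem result :
    (∀ n : ℕ, 0 < n → EssFree (fun A B : PS n => IsoRel n (A : Sn n) (B : Sn n))) ∧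
      EssFree (IsoRel 2) :=
  ⟨fun n hn => fin_PS Pool.Agent.H938R3.EF.t Pool.Agent.H861R3.EFIso.t Pool.Agent.H861R3.EFStd.t
      (Pool.Agent.H418R3.EF.Meas598.t Pool.Agent.H861R3.EFStd.t) Pool.Agent.H64R3.EFE.t
      Pool.Agent.H418R3.EF.TaskSHelper467.t n hn,
    fin_two Pool.Agent.H938R3.EF.t Pool.Agent.H418R3.EF.Glue125.t Pool.Agent.H938R3.EFAb.t
      Pool.Agent.H418R3.EF.Idx545.t Pool.Agent.H861R3.EFIso.t Pool.Agent.H861R3.EFStd.t
      (Pool.Agent.H418R3.EF.Meas598.t Pool.Agent.H861R3.EFStd.t) Pool.Agent.H64R3.EFE.t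
      Pool.Agent.H418R3.EF.TaskSHelper467.t Pool.Agent.H553R3.EFC.taskC Pool.Agent.H573R3.D1.t
      Pool.Agent.H418R3.EF.D2x717.t Pool.Agent.H581R3.EFT1.t Pool.Agent.H12R3.EFT2.t
      Pool.Agent.H861R3.EFT3.t Pool.Agent.H12R3.EFT4.t Pool.Agent.H418R3.EF.Cov504.t⟩

end Pool.Agent.Results.MP_98674e_lc.RankTwo
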